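import Pool.Agent.AT2.G.Crit
import Pool.Agent.H63.VC7.TetRC

/-!
# Project AT2, complex volume: the block of a clasp
-/

set_option autoImplicit false

namespace Pool.Agent.AT2.CV

open Complex Pool.Agent.H63.VC3 Pool.Agent.H63.VC5 Pool.Agent.H63.VC7 Pool.Agent.S3
open Pool.Agent.H63.VC7.Hyp Pool.Agent.AT2.Hyp Pool.Agent.AT2.G Pool.Agent.AT.G

/-! ### The order of the vertices -/

theorem shp_z' {z : ℂ} (hz : 0 < z.im) (c : Fin 3) : shp (1 / (1 - z)) c = shp z (c + 1) := by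
  obtain ⟨h0, h1⟩ := TetRC_ne z hz
  fin_cases c
  · rfl
  · show 1 / (1 - 1 / (1 - z)) = 1 - 1 / z
    have h2 : z - 1 ≠ 0 := fun h => h1 (by linear_combination -h)
    have h3 : 1 - 1 / (1 - z) = -z / (1 - z) := by field_simp; ring
    rw [h3]
    field_simp
    ring
  · show 1 - 1 / (1 / (1 - z)) = z
    field_simp
    ring

theorem lgs_z' {z : ℂ} (hz : 0 < z.im) (c : Fin 3) : lgs (1 / (1 - z)) c = lgs z (c + 1) := by
  unfold lgs
  rw [shp_z' hz]

/-- Two tetrahedra with the same shape and different orders of the vertices. -/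
theorem pair_a {z : ℂ} (hz : 0 < z.im) (n : Fin 3 → ℤ) (hn : n 0 + n 1 + n 2 = -1)
    (F : Fin 3 → ℂ) (hF : ∀ c, F c = lgs z c + n c * (Real.pi * I)) :
    Cg (tetR z F 0 1 + tetR z F 0 2) (2 * rh1 z n + n 0 * (Real.pi : ℂ) ^ 2 / 2) := by
  obtain ⟨x1, x2, x3, x4⟩ := tetR_cases z hz n hn F hF
  exact (x1.add x3).trans (Cg.of_eq (by ring))

theorem pair_b {z : ℂ} (hz : 0 < z.im) (n : Fin 3 → ℤ) (hn : n 0 + n 1 + n 2 = -1)
    (F : Fin 3 → ℂ) (hF : ∀ c, F c = lgs z c + n c * (Real.pi * I)) :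
    Cg (tetR z F 1 0 + tetR z F 2 0) (2 * rh1 z n - n 0 * (Real.pi : ℂ) ^ 2 / 2) := by
  obtain ⟨x1, x2, x3, x4⟩ := tetR_cases z hz n hn F hF
  have hz' := TetRC_z'im z hz
  obtain ⟨y1, y2, y3, y4⟩ := tetR_cases (1 / (1 - z)) hz' (fun c => n (c + 1))
    (by
      show n 1 + n 2 + n 0 = -1
      linarith) (fun c => F (c + 1))
    (fun c => by rw [hF, lgs_z' hz])
  have e1 : tetR z F 1 2 = tetR (1 / (1 - z)) (fun c => F (c + 1)) 0 1 := rfl
  have e2 : tetR z F 2 0 = tetR (1 / (1 - z)) (fun c => F (c + 1)) 1 2 := by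
    show RR (1 - 1 / z) (F 2) (F 0) = RR (shp (1 / (1 - z)) 1) (F 2) (F 0)
    rw [shp_z' hz]
    rfl
  have e3 : tetR z F 1 0 = tetR (1 / (1 - z)) (fun c => F (c + 1)) 0 2 := rfl
  obtain ⟨k1, h1⟩ := (y1.symm.trans (Cg.of_eq e1.symm)).trans x2
  obtain ⟨k2, h2⟩ := y2
  obtain ⟨k3, h3⟩ := y3
  have hnC : (n 0 : ℂ) + n 1 + n 2 = -1 := by exact_mod_cast hn
  have c0 : n (0 + 1) = n 1 := rfl
  have c1 : n (1 + 1) = n 2 := rfl
  rw [c1] at h2
  rw [c0] at h3
  rw [e2, e3]
  refine ⟨k2 + k3 + 2 * k1 + n 1, ?_⟩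
  push_cast
  linear_combination h2 + h3 + 2 * h1 + (Real.pi : ℂ) ^ 2 / 2 * hnC

/-! ### The flattening -/

/-- The integers of the flattening. -/
def nC (e A : ℤ) : Fin 4 → Fin 3 → ℤ :=
  ![![e, A, -1 - e - A], ![e, A, -1 - e - A], ![-e - 1, 0, e], ![-e - 1, 0, e]]

/-- The flattening of the block of a clasp. -/
noncomputable def FC (v : ℂ) (e A : ℤ) (k : Fin 4) (c : Fin 3) : ℂ :=
  lgs (kX v k) c + nC e A k c * (Real.pi * I)

theorem nC_sum (e A : ℤ) (k : Fin 4) : nC e A k 0 + nC e A k 1 + nC e A k 2 = -1 := by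
  fin_cases k
  · show e + A + (-1 - e - A) = -1
    ring
  · show e + A + (-1 - e - A) = -1
    ring
  · show -e - 1 + 0 + e = -1
    ring
  · show -e - 1 + 0 + e = -1
    ring

theorem FC_flat {v : ℂ} (h : |v.re| < 1 / 2) (e A : ℤ) (k : Fin 4) :
    IsFlat (kX v k) (FC v e A k) := by
  refine ⟨fun c => ⟨_, rfl⟩, ?_⟩
  have h1 := lgs_sum (kX_im h k)
  have h2 := congrArg (fun z : ℤ => (z : ℂ)) (nC_sum e A k)
  push_cast at h2
  unfold FC
  linear_combination h1 + (Real.pi * I) * h2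

theorem FC_clasp {v : ℂ} (h : |v.re| < 1 / 2) (e A : ℤ) :
    Clasp 0 (FC v e A) (2 * Real.pi * I * v + (2 * e + 1 : ℤ) * (Real.pi * I)) := by
  have H := clasp h
  have n00 : nC e A 0 0 = e := rfl
  have n01 : nC e A 0 1 = A := rfl
  have n02 : nC e A 0 2 = -1 - e - A := rfl
  have n10 : nC e A 1 0 = e := rfl
  have n11 : nC e A 1 1 = A := rfl
  have n12 : nC e A 1 2 = -1 - e - A := rfl
  have n20 : nC e A 2 0 = -e - 1 := rfl
  have n21 : nC e A 2 1 = 0 := rfl
  have n22 : nC e A 2 2 = e := rfl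
  have n30 : nC e A 3 0 = -e - 1 := rfl
  have n31 : nC e A 3 1 = 0 := rfl
  have n32 : nC e A 3 2 = e := rfl
  constructor <;> unfold FC
  · rw [n00, n10]; push_cast; linear_combination H.ll
  · rw [n20, n30]; push_cast; linear_combination H.uu
  · rw [n01, n12, n30]; push_cast; linear_combination H.cl1
  · rw [n02, n11, n20]; push_cast; linear_combination H.cl2
  · rw [n00, n22, n31]; push_cast; linear_combination H.cu1
  · rw [n10, n21, n32]; push_cast; linear_combination H.cu2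
  · rw [n00, n20]; push_cast; linear_combination H.lon
  · rw [n21, n22, n01, n12]; push_cast; linear_combination H.su
  · rw [n21, n32, n01, n02]; push_cast; linear_combination H.sl

/-- The shift of the part of the meridian. -/
def gC (s e A : ℤ) : ℤ := if s = 1 then A else 2 * e + 1 + A

theorem FC_mer {s : ℤ} {y v : ℂ} (h : ClE s y v) (e A : ℤ) :
    merC 0 (2 * s) (FC v e A) = he (y - v) - he (y + v) + gC s e A * (Real.pi * I) := by
  have h1 := merC_eq h.vr h.sg
  have h2 := h.mu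
  have h3 : exp (Real.pi * I * v) = tt v := rfl
  rw [h3, ← h2] at h1
  rw [← h1]
  have n00 : nC e A 0 0 = e := rfl
  have n01 : nC e A 0 1 = A := rfl
  have n11 : nC e A 1 1 = A := rfl
  have n20 : nC e A 2 0 = -e - 1 := rfl
  have n22 : nC e A 2 2 = e := rfl
  rcases h.sg with rfl | rfl
  · have k1 : gC 1 e A = A := if_pos rfl
    unfold merC FC
    rw [if_pos (by norm_num), if_pos (by norm_num), k1, n20, n22, n11]
    push_cast
    ring
  · have k1 : gC (-1) e A = 2 * e + 1 + A := if_neg (by decide)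
    unfold merC FC
    rw [if_neg (by norm_num), if_neg (by norm_num), k1, n00, n22, n01]
    push_cast
    ring

/-! ### The value -/

theorem log_kb {v : ℂ} (h : |v.re| < 1 / 2) : log (1 - I * exp (-(Real.pi * I * v))) =
    log (1 + I * tt v) - Real.pi * I / 2 - Real.pi * I * v := by
  have hx := im_I_exp (piIv_lt h)
  have hb := im_I_exp (piIv_lt' h)
  have hlt := abs_lt.1 (piIv_lt h)
  have hpi := Real.pi_pos
  have ht : exp (Real.pi * I * v) ≠ 0 := exp_ne_zero _
  have hpI : (Real.pi * I / 2 : ℂ).im = Real.pi / 2 := by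
    have : (Real.pi * I / 2 : ℂ) = ((Real.pi / 2 : ℝ) : ℂ) * I := by push_cast; ring
    rw [this, im_ofReal_mul, I_im, mul_one]
  have hb' : (1 - I * exp (-(Real.pi * I * v))).im < 0 := by
    rw [sub_im, one_im]
    linarith
  have hx' : 0 < (1 + I * exp (Real.pi * I * v)).im := by
    rw [add_im, one_im]
    linarith
  show log (1 - I * exp (-(Real.pi * I * v))) =
    log (1 + I * exp (Real.pi * I * v)) - Real.pi * I / 2 - Real.pi * I * v
  apply eq_of_exp
  · rw [exp_log (by intro h0; rw [h0] at hb'; exact lt_irrefl _ hb'), exp_sub, exp_sub,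
      exp_log (by intro h0; rw [h0] at hx'; exact lt_irrefl _ hx'), exp_neg]
    have : exp (Real.pi * I / 2) = I := by
      rw [show (Real.pi * I / 2 : ℂ) = Real.pi / 2 * I by ring, exp_pi_div_two_mul_I]
    rw [this]
    field_simp
    linear_combination (-1 : ℂ) * I_sq
  · obtain ⟨c1, c2⟩ := log_im_neg hb'
    obtain ⟨c3, c4⟩ := log_im_pos hx'
    rw [sub_im, sub_im, hpI, abs_lt]
    constructor <;> linarith

/-- **The value of the block of a clasp.** -/
theorem clasp_R {s : ℤ} {y v : ℂ} (h : ClE s y v) (e A : ℤ) (f : Bool) :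
    Cg (claspR (2 * s) (kX v) (FC v e A) f)
      (2 * Real.pi * I * PC s y v -
        (2 * Real.pi * I * v + (2 * e + 1 : ℤ) * (Real.pi * I)) / 2 * (he (y - v) - he (y + v)) -
        (Real.pi : ℂ) ^ 2 * (gC s e A * v) - (Real.pi : ℂ) ^ 2 / 2 * gC s e A) := by
  have hx := im_I_exp (piIv_lt h.vr)
  have hb := im_I_exp (piIv_lt' h.vr)
  have ha := pair_a hx (nC e A 0) (nC_sum e A 0) (FC v e A 0) (fun c => rfl)
  have hb1 := pair_b hb (nC e A 2) (nC_sum e A 2) (FC v e A 2) (fun c => rfl)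
  have k0 : kX v 0 = I * exp (Real.pi * I * v) := rfl
  have k1 : kX v 1 = I * exp (Real.pi * I * v) := rfl
  have k2 : kX v 2 = I * exp (-(Real.pi * I * v)) := rfl
  have k3 : kX v 3 = I * exp (-(Real.pi * I * v)) := rfl
  have f1 : FC v e A 1 = FC v e A 0 := rfl
  have f3 : FC v e A 3 = FC v e A 2 := rfl
  have e1 : claspR (2 * s) (kX v) (FC v e A) f =
      (tetR (I * exp (Real.pi * I * v)) (FC v e A 0) 0 1 +
        tetR (I * exp (Real.pi * I * v)) (FC v e A 0) 0 2) +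
      (tetR (I * exp (-(Real.pi * I * v))) (FC v e A 2) 1 0 +
        tetR (I * exp (-(Real.pi * I * v))) (FC v e A 2) 2 0) := by
    unfold claspR
    rw [k0, k1, k2, k3, f1, f3]
    rcases h.sg with rfl | rfl <;> cases f <;> simp <;> ring
  rw [e1]
  obtain ⟨j1, h1⟩ := ha
  obtain ⟨j2, h2⟩ := hb1
  have l0x : log (I * exp (Real.pi * I * v)) = Real.pi * I / 2 + Real.pi * I * v := lgs_x h.vr
  have l0b : log (I * exp (-(Real.pi * I * v))) = Real.pi * I / 2 - Real.pi * I * v :=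
    lgs_b h.vr
  have m1 := TetRC_l1 _ hx
  have m2 := TetRC_l1 _ hb
  have l1b := log_kb h.vr
  have hinv : 1 / (I * exp (-(Real.pi * I * v))) = -(I * tt v) := by
    rw [exp_neg]
    have ht := tt_ne v
    show 1 / (I * (tt v)⁻¹) = -(I * tt v)
    have hI := I_ne_zero
    field_simp
    linear_combination I_sq
  have hd := TetRC_dinv _ hb
  rw [hinv] at hd
  have ex : exp (Real.pi * I * v) = tt v := rfl
  have n00 : nC e A 0 0 = e := rfl
  have n01 : nC e A 0 1 = A := rfl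
  have n20 : nC e A 2 0 = -e - 1 := rfl
  have n21 : nC e A 2 1 = 0 := rfl
  rw [n00] at h1
  rw [n20] at h2
  unfold rh1 rh0 at h1 h2
  rw [n00, n01, lgs_0, lgs_1] at h1
  rw [n20, n21, lgs_0, lgs_1] at h2
  rw [m1] at h1
  rw [m2] at h2
  unfold l0 at h1 h2 hd
  rw [l0x, ex] at h1
  rw [l0b, l1b] at h2
  rw [l0b] at hd
  have hmu := h.mu
  have hval := h.val
  unfold cE at hval
  have hpi : (Real.pi : ℂ) ≠ 0 := by exact_mod_cast Real.pi_ne_zero
  have hI := I_ne_zero
  have hJ : ((Real.pi : ℂ) * I) ^ 2 = -(Real.pi : ℂ) ^ 2 := by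
    rw [mul_pow, I_sq]
    ring
  have hq : Real.pi * I * ((dilog (I * tt v) - dilog (-(I * tt v))) / (Real.pi * I)) =
      dilog (I * tt v) - dilog (-(I * tt v)) := by
    field_simp
  generalize (dilog (I * tt v) - dilog (-(I * tt v))) / (Real.pi * I) = q at hval hq
  rw [hval, hmu, ex]
  rcases h.sg with rfl | rfl
  · have g1 : gC 1 e A = A := if_pos rfl
    rw [g1]
    refine ⟨j1 + j2 + (e + 1), ?_⟩
    push_cast at h1 h2 ⊢
    linear_combination h1 + h2 + 2 * hd - 2 * hq + (A * v + A / 2 - 1 / 2) * hJ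
  · have g1 : gC (-1) e A = 2 * e + 1 + A := if_neg (by decide)
    rw [g1]
    refine ⟨j1 + j2 + (2 * e - 1), ?_⟩
    push_cast at h1 h2 ⊢
    linear_combination h1 + h2 + 2 * hd - 2 * hq + ((A + 2 * e + 1) * v + A / 2 + 2) * hJ

end Pool.Agent.AT2.CV
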