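import Pool.Agent.AT2.CV.Clasp
import Pool.Agent.AT.CV.Sum
import Pool.Agent.AT.G.Flat

/-!
# Project AT2, complex volume: the complex volume of the link complement
-/

set_option autoImplicit false

namespace Pool.Agent.AT2.CV

open Pool.Agent.H63.VC7 hiding FX FY
open Complex Pool.Agent.H63.VC3 Pool.Agent.H63.VC5 Pool.Agent.S3 Pool.Agent.S3.G
open Pool.Agent.H63.VC7.Hyp Pool.Agent.AT.Hyp Pool.Agent.AT2.Hyp Pool.Agent.AT2.G Pool.Agent.AT.G
open Pool.Agent.AT.CV
open scoped BigOperators

variable {m p : ℕ} {s t : Fin m → Fin p} {a : Fin p → ℤ} {y : Fin m → ℂ} {v : Fin p → ℂ}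

/-- The integers of the equations of the nodes. -/
def Wu (s t : Fin m → Fin p) (a n : Fin p → ℤ) (al be : Fin m → ℤ) : Prop :=
  ∀ i, (∑ j, ((if s j = i then 2 * al j + n (t j) + 1 else 0) +
        (if t j = i then -(2 * be j + n (s j) + 1) else 0))) + a i * n i = 2

/-- The half twists. -/
def Flp (s t : Fin m → Fin p) (a : Fin p → ℤ) (f f' : Fin m → Bool) : Prop :=
  ∀ i, 2 ∣ (∑ j, ((if s j = i ∧ f j = true then (1 : ℤ) else 0) +
        (if t j = i ∧ f' j = true then 1 else 0))) - a i

/-- The shift of the part of the meridian of the node of a clasp. -/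
def gS (s t : Fin m → Fin p) (a n : Fin p → ℤ) (al be : Fin m → ℤ) (j : Fin m) : ℤ :=
  if |a (t j)| = 2 then 2 * al j + n (t j) + 1 else -(2 * be j + n (s j) + 1)

/-- Half of the shift of the longitude of the node of a clasp. -/
def eS (s t : Fin m → Fin p) (a n : Fin p → ℤ) (j : Fin m) : ℤ := (n (node s t a j) - 1) / 2

/-- The integer of the flattening. -/
def AS (s t : Fin m → Fin p) (a n : Fin p → ℤ) (al be : Fin m → ℤ) (j : Fin m) : ℤ :=
  if sg s t a j = 1 then gS s t a n al be j
  else gS s t a n al be j - (2 * eS s t a n j + 1)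

theorem gC_AS (n : Fin p → ℤ) (al be : Fin m → ℤ) (j : Fin m) :
    gC (sg s t a j) (eS s t a n j) (AS s t a n al be j) = gS s t a n al be j := by
  unfold gC AS
  split_ifs <;> ring

/-- The only edge of a clasp. -/
theorem leaf_sum (h : CritS2 s t a y v) {j : Fin m} (hj : IsCl s t a j) (A B : Fin m → ℤ) :
    ∑ j', ((if s j' = leaf s t a j then A j' else 0) + (if t j' = leaf s t a j then B j' else 0)) =
      if |a (t j)| = 2 then B j else A j := by
  have hl := (h.leaf_ne hj).1
  have hinc : s j = leaf s t a j ∨ t j = leaf s t a j := by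
    rcases h.kinds j with ⟨k1, k2, k3⟩ | ⟨k1, k2, k3, k4, k5⟩ | ⟨k1, k2, k3, k4, k5⟩
    · exact absurd hj k1
    · exact Or.inr k4.symm
    · exact Or.inl k4.symm
  rw [Finset.sum_eq_single j]
  · rcases h.kinds j with ⟨k1, k2, k3⟩ | ⟨k1, k2, k3, k4, k5⟩ | ⟨k1, k2, k3, k4, k5⟩
    · exact absurd hj k1
    · rw [k4, if_pos k2, if_pos rfl, if_neg (h.st j), zero_add]
    · rw [k4, if_neg k3, if_pos rfl, if_neg (Ne.symm (h.st j)), add_zero]
  · intro j' _ hne
    have h1 : s j' ≠ leaf s t a j := fun e => hne (h.leaf1 _ hl j' j (Or.inl e) hinc)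
    have h2 : t j' ≠ leaf s t a j := fun e => hne (h.leaf1 _ hl j' j (Or.inr e) hinc)
    rw [if_neg h1, if_neg h2, add_zero]
  · intro hh
    exact absurd (Finset.mem_univ j) hh

theorem leaf_even (h : CritS2 s t a y v) {j : Fin m} (hj : IsCl s t a j) :
    (2 : ℤ) ∣ a (leaf s t a j) := by
  rw [(h.two_sg hj).1]
  exact dvd_mul_right _ _

/-- The shift of the longitude of the node of a clasp is odd. -/
theorem node_odd (h : CritS2 s t a y v) {n : Fin p → ℤ} {al be : Fin m → ℤ}
    (hn : Wu s t a n al be) {j : Fin m} (hj : IsCl s t a j) :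
    2 * eS s t a n j + 1 = n (node s t a j) := by
  have h1 := hn (leaf s t a j)
  rw [leaf_sum h hj] at h1
  obtain ⟨c, hc⟩ := leaf_even h hj
  rw [hc] at h1
  have h2 : (2 : ℤ) ∣ n (node s t a j) + 1 := by
    rcases h.kinds j with ⟨k1, k2, k3⟩ | ⟨k1, k2, k3, k4, k5⟩ | ⟨k1, k2, k3, k4, k5⟩
    · exact absurd hj k1
    · rw [if_pos k2] at h1
      rw [k5]
      refine ⟨c * n (leaf s t a j) - 1 - be j, ?_⟩
      linarith
    · rw [if_neg k3] at h1
      rw [k5]
      refine ⟨1 - al j - c * n (leaf s t a j), ?_⟩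
      linarith
  unfold eS
  omega

/-- There is no half twist at the leaf, modulo `2`. -/
theorem leaf_flip (h : CritS2 s t a y v) {f f' : Fin m → Bool} (hf : Flp s t a f f')
    {j : Fin m} (hj : IsCl s t a j) : (if |a (t j)| = 2 then f' j else f j) = false := by
  have h1 := hf (leaf s t a j)
  have h2 : ∀ j', ((if s j' = leaf s t a j ∧ f j' = true then (1 : ℤ) else 0) +
      (if t j' = leaf s t a j ∧ f' j' = true then 1 else 0)) =
      ((if s j' = leaf s t a j then (if f j' = true then 1 else 0) else 0) +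
        (if t j' = leaf s t a j then (if f' j' = true then 1 else 0) else 0)) := by
    intro j'
    rw [ite_and, ite_and]
  rw [Finset.sum_congr rfl fun j' _ => h2 j', leaf_sum h hj] at h1
  obtain ⟨c, hc⟩ := leaf_even h hj
  rw [hc] at h1
  by_cases h3 : |a (t j)| = 2
  · rw [if_pos h3] at h1 ⊢
    by_contra h4
    rw [Bool.not_eq_false] at h4
    rw [if_pos h4] at h1
    omega
  · rw [if_neg h3] at h1 ⊢
    by_contra h4
    rw [Bool.not_eq_false] at h4
    rw [if_pos h4] at h1
    omega

/-! ### The flattening -/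

/-- The flattenings of the tetrahedra, around `a_0 a_2` for the edges without clasp. -/
noncomputable def FS (s t : Fin m → Fin p) (a n : Fin p → ℤ) (al be : Fin m → ℤ) (y : Fin m → ℂ)
    (v : Fin p → ℂ) (j : Fin m) : Fin 4 → Fin 3 → ℂ :=
  if IsCl s t a j then FC (v (node s t a j)) (eS s t a n j) (AS s t a n al be j)
  else FX (y j) (v (s j)) (v (t j)) (n (s j)) (n (t j)) (al j) (be j)

/-- The flattenings of the second octahedra. -/
noncomputable def GS (s t : Fin m → Fin p) (n : Fin p → ℤ) (al be : Fin m → ℤ) (y : Fin m → ℂ)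
    (v : Fin p → ℂ) (j : Fin m) : Fin 4 → Fin 3 → ℂ :=
  FY (y j) (v (s j)) (v (t j)) (n (s j)) (n (t j)) (al j) (be j)

theorem glue2 (h : CritS2 s t a y v) {n : Fin p → ℤ} {al be : Fin m → ℤ}
    (hn : Wu s t a n al be) :
    AT2.Hyp.Glue 0 s t a (fun j => aroundA 1 2 (FS s t a n al be y v j))
      (fun j => aroundA 2 1 (GS s t n al be y v j)) (FS s t a n al be y v)
      (fun i => 2 * Real.pi * I * v i + n i * (Real.pi * I))
      (fun i => hh (v i + 1 / 2) + n i / 2 * (Real.pi * I)) := by
  refine ⟨fun j hj => ?_, fun j hj => ?_, fun i hi => ?_⟩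
  · unfold FS GS
    simp only [if_neg hj]
    exact AT.Fl.block_flat (h.op j hj).ste _ _ _ _
  · unfold FS
    simp only [if_pos hj]
    have h1 := FC_clasp (h.cl j hj).vr (eS s t a n j) (AS s t a n al be j)
    rw [node_odd h hn hj] at h1
    exact h1
  · have hj : ∀ j, merB 0 s t a (fun j => aroundA 1 2 (FS s t a n al be y v j))
        (FS s t a n al be y v) i j =
        ((if s j = i then he (y j - v i) - he (y j + v i) else 0) +
          (if t j = i then he (y j - v i) - he (y j + v i) else 0)) +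
        (((if s j = i then 2 * al j + n (t j) + 1 else 0) +
          (if t j = i then -(2 * be j + n (s j) + 1) else 0) : ℤ) : ℂ) * (Real.pi * I) := by
      intro j
      unfold merB FS
      rcases h.kinds j with ⟨k1, k2, k3⟩ | ⟨k1, k2, k3, k4, k5⟩ | ⟨k1, k2, k3, k4, k5⟩
      · rw [if_neg k1]
        simp only [if_neg k1]
        obtain ⟨e1, e2⟩ := AT.Fl.block_mer (y := y j) (v := v (s j)) (w := v (t j)) (n (s j))
          (n (t j)) (al j) (be j)
        rw [e1, e2]
        by_cases h1 : s j = i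
        · have h2 : t j ≠ i := fun e => h.st j (h1.trans e.symm)
          rw [if_pos h1, if_neg h2, if_pos h1, if_neg h2, if_pos h1, if_neg h2, h1]
          push_cast
          ring
        · by_cases h2 : t j = i
          · rw [if_neg h1, if_pos h2, if_neg h1, if_pos h2, if_neg h1, if_pos h2, h2]
            push_cast
            ring
          · rw [if_neg h1, if_neg h2, if_neg h1, if_neg h2, if_neg h1, if_neg h2]
            push_cast
            ring
      · have h1 : t j ≠ i := by
          rintro rfl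
          exact hi k2
        have hc := h.cl j k1
        have h2 := FC_mer hc (eS s t a n j) (AS s t a n al be j)
        have g1 : gS s t a n al be j = 2 * al j + n (t j) + 1 := if_pos k2
        rw [if_pos k1, (h.two_sg k1).1]
        simp only [if_pos k1, if_neg h1, add_zero]
        rw [h2, gC_AS, g1, k5]
        by_cases h5 : s j = i
        · rw [if_pos h5, if_pos h5, if_pos h5, h5]
        · rw [if_neg h5, if_neg h5, if_neg h5]
          push_cast
          ring
      · have h1 : s j ≠ i := by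
          rintro rfl
          exact hi k2
        have hc := h.cl j k1
        have h2 := FC_mer hc (eS s t a n j) (AS s t a n al be j)
        have g1 : gS s t a n al be j = -(2 * be j + n (s j) + 1) := if_neg k3
        rw [if_pos k1, (h.two_sg k1).1]
        simp only [if_pos k1, if_neg h1, zero_add]
        rw [h2, gC_AS, g1, k5]
        by_cases h5 : t j = i
        · rw [if_pos h5, if_pos h5, if_pos h5, h5]
        · rw [if_neg h5, if_neg h5, if_neg h5]
          push_cast
          ring
    have hev := h.ev i hi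
    rw [sum_inc_ite s t h.st] at hev
    have h2 : (((∑ j, ((if s j = i then 2 * al j + n (t j) + 1 else 0) +
        (if t j = i then -(2 * be j + n (s j) + 1) else 0)) : ℤ)) : ℂ) + a i * n i = 2 := by
      exact_mod_cast hn i
    rw [Finset.sum_congr rfl fun j _ => hj j, Finset.sum_add_distrib, ← Finset.sum_mul,
      ← Int.cast_sum]
    linear_combination hev + (Real.pi * I) * h2

/-! ### The value -/

/-- The integer correction of an edge. -/
def DS (s t : Fin m → Fin p) (a n : Fin p → ℤ) (al be : Fin m → ℤ) (f f' : Fin m → Bool)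
    (j : Fin m) : ℤ :=
  if IsCl s t a j then -gS s t a n al be j
  else n (s j) - n (t j) + bt1 (f j) * (1 + n (s j)) + bt1 (f' j) * (1 + n (t j))

theorem DS_parity (h : CritS2 s t a y v) {n : Fin p → ℤ} {al be : Fin m → ℤ}
    (hn : Wu s t a n al be) {f f' : Fin m → Bool} (hf : Flp s t a f f') :
    2 ∣ ∑ j, DS s t a n al be f f' j - ∑ i, a i := by
  have h0 := SumC_parity s t a n al be hn f f' hf
  have h1 : ∀ j, (2 : ℤ) ∣ DS s t a n al be f f' j -
      (n (s j) - n (t j) + bt1 (f j) * (1 + n (s j)) + bt1 (f' j) * (1 + n (t j))) := by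
    intro j
    unfold DS
    rcases h.kinds j with ⟨k1, k2, k3⟩ | ⟨k1, k2, k3, k4, k5⟩ | ⟨k1, k2, k3, k4, k5⟩
    · rw [if_neg k1, sub_self]
      exact dvd_zero _
    · have g1 : gS s t a n al be j = 2 * al j + n (t j) + 1 := if_pos k2
      have h2 := node_odd h hn k1
      have h3 := leaf_flip h hf k1
      rw [k5] at h2
      rw [if_pos k2] at h3
      rw [if_pos k1, g1, h3, ← h2]
      have h4 : bt1 false = 0 := rfl
      rw [h4]
      refine ⟨-al j - 1 - eS s t a n j - bt1 (f j) * (1 + eS s t a n j), ?_⟩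
      ring
    · have g1 : gS s t a n al be j = -(2 * be j + n (s j) + 1) := if_neg k3
      have h2 := node_odd h hn k1
      have h3 := leaf_flip h hf k1
      rw [k5] at h2
      rw [if_neg k3] at h3
      rw [if_pos k1, g1, h3, ← h2]
      have h4 : bt1 false = 0 := rfl
      rw [h4]
      refine ⟨be j + 1 + eS s t a n j - bt1 (f' j) * (1 + eS s t a n j), ?_⟩
      ring
  have h2 := Finset.dvd_sum (s := Finset.univ) fun j _ => h1 j
  rw [Finset.sum_sub_distrib] at h2
  have h3 := dvd_add h2 h0
  rwa [sub_add_sub_cancel] at h3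

/-- The value of a block. -/
noncomputable def RS (s t : Fin m → Fin p) (a n : Fin p → ℤ) (al be : Fin m → ℤ)
    (f f' : Fin m → Bool) (y : Fin m → ℂ) (v : Fin p → ℂ) (j : Fin m) : ℂ :=
  if IsCl s t a j then
    claspR (a (leaf s t a j)) (gX s t a y v j) (FS s t a n al be y v j)
      (if |a (t j)| = 2 then f j else f' j)
  else blockR (turn 1 2 (gX s t a y v j)) (turn 2 1 (gY s t y v j)) (FS s t a n al be y v j)
    (GS s t n al be y v j) (f j) (f' j)

/-- The part of the node `i` at the edge `j`. -/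
noncomputable def NP (n : Fin p → ℤ) (y : Fin m → ℂ) (v : Fin p → ℂ) (g : ℤ) (i : Fin p)
    (j : Fin m) : ℂ :=
  (2 * Real.pi * I * v i + n i * (Real.pi * I)) / 2 * (he (y j - v i) - he (y j + v i)) +
    (Real.pi : ℂ) ^ 2 * (g * v i)

theorem RS_eq (h : CritS2 s t a y v) {n : Fin p → ℤ} {al be : Fin m → ℤ}
    (hn : Wu s t a n al be) (f f' : Fin m → Bool) (j : Fin m) :
    Cg (RS s t a n al be f f' y v j)
      (2 * Real.pi * I * PE s t a y v j -
        ((if |a (s j)| = 2 then 0 else NP n y v (2 * al j + n (t j) + 1) (s j) j) +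
          (if |a (t j)| = 2 then 0 else NP n y v (-(2 * be j + n (s j) + 1)) (t j) j)) +
        (Real.pi : ℂ) ^ 2 / 2 * DS s t a n al be f f' j) := by
  unfold RS PE DS FS GS gX gY NP
  rcases h.kinds j with ⟨k1, k2, k3⟩ | ⟨k1, k2, k3, k4, k5⟩ | ⟨k1, k2, k3, k4, k5⟩
  · simp only [if_neg k1, if_neg k2, if_neg k3]
    have hE := h.op j k1
    rw [turn_cX hE.sv hE.posC, turn_cY hE.sv hE.posC]
    refine (block_R (Db.of_blk hE.blk) hE.ey (n (s j)) (n (t j)) (al j) (be j) (f j)
      (f' j)).trans (Cg.of_eq ?_)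
    unfold PO
    push_cast
    ring
  · simp only [if_pos k1, if_neg k3, if_pos k2, add_zero]
    rw [(h.two_sg k1).1]
    have hv := clasp_R (h.cl j k1) (eS s t a n j) (AS s t a n al be j) (f j)
    rw [gC_AS, node_odd h hn k1] at hv
    refine hv.trans (Cg.of_eq ?_)
    have g1 : gS s t a n al be j = 2 * al j + n (t j) + 1 := if_pos k2
    rw [g1, k5]
    push_cast
    ring
  · simp only [if_pos k1, if_neg k3, if_pos k2, zero_add]
    rw [(h.two_sg k1).1]
    have hv := clasp_R (h.cl j k1) (eS s t a n j) (AS s t a n al be j) (f' j)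
    rw [gC_AS, node_odd h hn k1] at hv
    refine hv.trans (Cg.of_eq ?_)
    have g1 : gS s t a n al be j = -(2 * be j + n (s j) + 1) := if_neg k3
    rw [g1, k5]
    push_cast
    ring

/-- The sum of the values of the blocks. -/
theorem sum_RS (h : CritS2 s t a y v) {n : Fin p → ℤ} {al be : Fin m → ℤ}
    (hn : Wu s t a n al be) {f f' : Fin m → Bool} (hf : Flp s t a f f') :
    Cg (∑ j, RS s t a n al be f f' y v j)
      (2 * Real.pi * I * WT2 s t a y v + (Real.pi : ℂ) ^ 2 / 2 * ∑ i, (a i : ℂ)) := by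
  have h0 := Cg.sum Finset.univ (fun j _ => RS_eq h hn f f' j)
  refine h0.trans ?_
  obtain ⟨k, hk⟩ := DS_parity h hn hf
  have hkC := congrArg (fun z : ℤ => (z : ℂ)) hk
  push_cast at hkC
  have hsum := sum_nodes s t (fun i => |a i| = 2)
    (fun i j => NP n y v (2 * al j + n (t j) + 1) i j)
    (fun i j => NP n y v (-(2 * be j + n (s j) + 1)) i j)
  have hnode : ∀ i, (if |a i| = 2 then (0 : ℂ) else
      ∑ j, ((if s j = i then NP n y v (2 * al j + n (t j) + 1) i j else 0) +
        (if t j = i then NP n y v (-(2 * be j + n (s j) + 1)) i j else 0))) +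
      2 * Real.pi * I * (if |a i| = 2 then (0 : ℂ) else
        2 * Real.pi * I * ((a i : ℂ) / 2 * v i ^ 2 + v i)) =
      (Real.pi : ℂ) ^ 2 * ((if |a i| = 2 then 0 else n i : ℤ) : ℂ) := by
    intro i
    by_cases hi : |a i| = 2
    · rw [if_pos hi, if_pos hi, if_pos hi]
      push_cast
      ring
    · rw [if_neg hi, if_neg hi, if_neg hi]
      have hev := h.ev i hi
      rw [sum_inc_ite s t h.st] at hev
      have h2 : (((∑ j, ((if s j = i then 2 * al j + n (t j) + 1 else 0) +
        (if t j = i then -(2 * be j + n (s j) + 1) else 0)) : ℤ)) : ℂ) + a i * n i = 2 := by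
        exact_mod_cast hn i
      have h3 : ∑ j, ((if s j = i then NP n y v (2 * al j + n (t j) + 1) i j else 0) +
          (if t j = i then NP n y v (-(2 * be j + n (s j) + 1)) i j else 0)) =
          (2 * Real.pi * I * v i + n i * (Real.pi * I)) / 2 *
            ∑ j, ((if s j = i then he (y j - v i) - he (y j + v i) else 0) +
              (if t j = i then he (y j - v i) - he (y j + v i) else 0)) +
          (Real.pi : ℂ) ^ 2 * v i *
            ((∑ j, ((if s j = i then 2 * al j + n (t j) + 1 else 0) +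
              (if t j = i then -(2 * be j + n (s j) + 1) else 0)) : ℤ) : ℂ) := by
        rw [Int.cast_sum, Finset.mul_sum, Finset.mul_sum, ← Finset.sum_add_distrib]
        refine Finset.sum_congr rfl fun j _ => ?_
        unfold NP
        by_cases h1 : s j = i
        · have h2 : t j ≠ i := fun e => h.st j (h1.trans e.symm)
          rw [if_pos h1, if_neg h2, if_pos h1, if_neg h2, if_pos h1, if_neg h2]
          push_cast
          ring
        · by_cases h2 : t j = i
          · rw [if_neg h1, if_pos h2, if_neg h1, if_pos h2, if_neg h1, if_pos h2]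
            push_cast
            ring
          · rw [if_neg h1, if_neg h2, if_neg h1, if_neg h2, if_neg h1, if_neg h2]
            push_cast
            ring
      rw [h3]
      linear_combination ((2 * Real.pi * I * v i + n i * (Real.pi * I)) / 2) * hev +
        (Real.pi : ℂ) ^ 2 * v i * h2 +
        (-((Real.pi : ℂ) ^ 2 * (2 * v i + n i) * (a i * v i + 1)) +
          4 * (Real.pi : ℂ) ^ 2 * (a i / 2 * v i ^ 2 + v i)) * I_sq
  refine ⟨k - ∑ i, (if |a i| = 2 then 0 else n i), ?_⟩
  have hN : ∑ j, ((if |a (s j)| = 2 then 0 else NP n y v (2 * al j + n (t j) + 1) (s j) j) +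
      (if |a (t j)| = 2 then 0 else NP n y v (-(2 * be j + n (s j) + 1)) (t j) j)) +
      2 * Real.pi * I * ∑ i, (if |a i| = 2 then (0 : ℂ) else
        2 * Real.pi * I * ((a i : ℂ) / 2 * v i ^ 2 + v i)) =
      (Real.pi : ℂ) ^ 2 * ((∑ i, (if |a i| = 2 then 0 else n i) : ℤ) : ℂ) := by
    rw [← hsum, Int.cast_sum, Finset.mul_sum, Finset.mul_sum, ← Finset.sum_add_distrib]
    exact Finset.sum_congr rfl fun i _ => hnode i
  rw [Finset.sum_add_distrib, Finset.sum_sub_distrib, ← Finset.mul_sum, ← Finset.mul_sum]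
  unfold WT2
  rw [Int.cast_sub]
  linear_combination (Real.pi : ℂ) ^ 2 / 2 * hkC - hN

/-- **The complex volume at the critical point.** -/
theorem CritS2.isComplexVolume (h : CritS2 s t a y v) :
    ∃ Z : ℂ, AT2.Hyp.IsComplexVolume s t a Z ∧
      ∃ k : ℤ, Z = 2 * Real.pi * I * WT2 s t a y v + (Real.pi : ℂ) ^ 2 / 2 * ∑ i, (a i : ℂ) +
        k * (Real.pi : ℂ) ^ 2 := by
  obtain ⟨n, al, be, hn⟩ := wu_exists s t h.st h.ne a
  obtain ⟨f, f', hf⟩ := flip_exists s t h.st h.ne a
  refine ⟨∑ j, RS s t a n al be f f' y v j, ⟨gX s t a y v, gY s t y v, FS s t a n al be y v,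
    GS s t n al be y v, _, _, f, f', h.isGeom, fun j hj k => ?_, fun j hj => ⟨fun k => ?_, ?_, ?_⟩,
    glue2 h hn, fun i _ => hf i, rfl⟩, sum_RS h hn hf⟩
  · unfold gX FS
    simp only [if_pos hj]
    exact FC_flat (h.cl j hj).vr _ _ k
  · unfold gX gY FS GS
    simp only [if_neg hj]
    have hE := h.op j hj
    rw [turn_cX hE.sv hE.posC, turn_cY hE.sv hE.posC]
    exact ⟨AT.Fl.isFlat_X hE.blk _ _ _ _ k, AT.Fl.isFlat_Y hE.blk _ _ _ _ k⟩
  · unfold FS
    simp only [if_neg hj]
    exact AT.Fl.sum_FX (h.op j hj).blk _ _ _ _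
  · unfold GS
    exact AT.Fl.sum_FY (h.op j hj).blk _ _ _ _

end Pool.Agent.AT2.CV
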